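import Mathlib

set_option autoImplicit false

/-!
# Domes that can not be reached by cutting off pyramids along base edges

`P` is the hull of the rectangle `[-3,3] × [-1,1] × {0}` and the ridge from `(-2,0,1)` to
`(2,0,1)`, and `D` is the hull of the same rectangle and the lower ridge from `(-2,0,1/2)` to
`(2,0,1/2)`. Both are domes with base the rectangle `X`, and `D ⊆ P`, but no sequence of admissible
pyramid cuts leads from `P` to `D`.
-/

namespace Pool.Agent.Results.MP_3a21c3_co.DomeInDome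

open Set

/-- Euclidean three-space. -/
abbrev E3 : Type := EuclideanSpace ℝ (Fin 3)

/-- A convex polyhedron: the convex hull of finitely many points, with nonempty interior. -/
def IsConvexPolyhedron (P : Set E3) : Prop :=
  (∃ S : Finset E3, P = convexHull ℝ (S : Set E3)) ∧ (interior P).Nonempty

/-- `F` is the set in which the convex set `A` meets the supporting plane `{l = c}`. -/
def IsSupportSet (A F : Set E3) : Prop :=
  ∃ (l : E3 →ₗ[ℝ] ℝ) (c : ℝ), l ≠ 0 ∧ (∀ x ∈ A, l x ≤ c) ∧ F = {x ∈ A | l x = c} ∧ F.Nonempty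

/-- `F` is a (two-dimensional) face of `P`. -/
def IsFace (P F : Set E3) : Prop :=
  IsSupportSet P F ∧ Module.finrank ℝ (vectorSpan ℝ F) = 2

/-- `e` is an edge of `A` (a polyhedron or a convex polygon). -/
def IsEdge (A e : Set E3) : Prop :=
  IsSupportSet A e ∧ Module.finrank ℝ (vectorSpan ℝ e) = 1

/-- `v` is a vertex of `A` (a polyhedron or a convex polygon). -/
def IsVertex (A : Set E3) (v : E3) : Prop := IsSupportSet A {v}

/-- A g-dome `G` with base `X`: every face other than `X` has an edge or a vertex in common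
with `X`. -/
def IsGDome (G X : Set E3) : Prop :=
  IsConvexPolyhedron G ∧ IsFace G X ∧ ∀ F, IsFace G F → F ≠ X →
    (∃ e, IsEdge X e ∧ IsEdge F e) ∨ ∃ v, IsVertex X v ∧ IsVertex F v

/-- A dome `G` with base `X`: every face other than `X` has an edge in common with `X`. -/
def IsDome (G X : Set E3) : Prop :=
  IsConvexPolyhedron G ∧ IsFace G X ∧ ∀ F, IsFace G F → F ≠ X → ∃ e, IsEdge X e ∧ IsEdge F e

/-- A pyramid: the convex hull of a convex polygon (the hull of a finite set `B` spanning a plane)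
and a point `v` outside the plane of the polygon. -/
def IsPyramid (Q : Set E3) : Prop :=
  ∃ (B : Finset E3) (v : E3), Module.finrank ℝ (vectorSpan ℝ (B : Set E3)) = 2 ∧
    v ∉ affineSpan ℝ (B : Set E3) ∧ Q = convexHull ℝ (insert v (B : Set E3))

/-- One admissible cut, leading from `P` to `P'`: the plane `{l = c}` contains an edge of `X`, the
interior of `D` lies strictly on one side of it (the side `l < c`), the closed part of `P` on the
other side is a pyramid, and `P'` is the closure of what is left of `P`. -/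
def Cut (X D P P' : Set E3) : Prop :=
  ∃ (l : E3 →ₗ[ℝ] ℝ) (c : ℝ), l ≠ 0 ∧ (∃ e, IsEdge X e ∧ ∀ x ∈ e, l x = c) ∧
    (∀ x ∈ interior D, l x < c) ∧ IsPyramid {x ∈ P | c ≤ l x} ∧
    P' = closure (P \ {x ∈ P | c ≤ l x})

/-- `D` is reached from `P` by a finite sequence of admissible cuts. -/
def Reachable (X D P : Set E3) : Prop := Relation.ReflTransGen (Cut X D) P D

theorem isGDome_of_isDome {G X : Set E3} (h : IsDome G X) : IsGDome G X :=
  ⟨h.1, h.2.1, fun F hF hFX => Or.inl (h.2.2 F hF hFX)⟩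

/-! ### Linear functionals in coordinates -/

/-- A point given by its coordinates. -/
noncomputable def pt (a b c : ℝ) : E3 := !₂[a, b, c]

@[simp] theorem pt_zero (a b c : ℝ) : pt a b c 0 = a := rfl
@[simp] theorem pt_one (a b c : ℝ) : pt a b c 1 = b := rfl
@[simp] theorem pt_two (a b c : ℝ) : pt a b c 2 = c := rfl

theorem ext3 {p q : E3} (h0 : p 0 = q 0) (h1 : p 1 = q 1) (h2 : p 2 = q 2) : p = q := by
  ext i; fin_cases i <;> assumption

theorem eq_pt (p : E3) : p = pt (p 0) (p 1) (p 2) := ext3 rfl rfl rfl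

theorem functional_eq (l : E3 →ₗ[ℝ] ℝ) (p : E3) :
    l p = l (pt 1 0 0) * p 0 + l (pt 0 1 0) * p 1 + l (pt 0 0 1) * p 2 := by
  have h : p = p 0 • pt 1 0 0 + p 1 • pt 0 1 0 + p 2 • pt 0 0 1 := by
    apply ext3 <;> simp
  conv_lhs => rw [h]
  simp only [map_add, map_smul, smul_eq_mul]
  ring

theorem functional_ext {l : E3 →ₗ[ℝ] ℝ} (h0 : l (pt 1 0 0) = 0) (h1 : l (pt 0 1 0) = 0)
    (h2 : l (pt 0 0 1) = 0) : l = 0 := by
  ext p
  rw [functional_eq l p, h0, h1, h2]
  simp

/-- The functional with given coefficients. -/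
noncomputable def fn (a b c : ℝ) : E3 →ₗ[ℝ] ℝ where
  toFun p := a * p 0 + b * p 1 + c * p 2
  map_add' p q := by simp; ring
  map_smul' r p := by simp; ring

@[simp] theorem fn_apply (a b c : ℝ) (p : E3) : fn a b c p = a * p 0 + b * p 1 + c * p 2 := rfl

theorem fn_ne_zero {a b c : ℝ} (h : a ≠ 0 ∨ b ≠ 0 ∨ c ≠ 0) : fn a b c ≠ 0 := by
  intro h0
  have ha : fn a b c (pt 1 0 0) = 0 := by rw [h0]; rfl
  have hb : fn a b c (pt 0 1 0) = 0 := by rw [h0]; rfl
  have hc : fn a b c (pt 0 0 1) = 0 := by rw [h0]; rfl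
  simp at ha hb hc
  tauto

/-! ### Support sets of convex hulls -/

theorem support_hull (V : Set E3) (l : E3 →ₗ[ℝ] ℝ) (c : ℝ) (h : ∀ x ∈ V, l x ≤ c) :
    {x ∈ convexHull ℝ V | l x = c} = convexHull ℝ {x ∈ V | l x = c} := by
  apply subset_antisymm
  · rintro x ⟨hx, hxc⟩
    have hK : Convex ℝ ({x | l x < c} ∪ convexHull ℝ {x ∈ V | l x = c}) := by
      have hsub : convexHull ℝ {x ∈ V | l x = c} ⊆ {x | l x = c} := by
        apply convexHull_min
        · rintro y ⟨-, hy⟩; exact hy
        · exact convex_hyperplane l.isLinear c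
      intro a ha b hb s t hs ht hst
      rcases ha with ha | ha <;> rcases hb with hb | hb
      · left
        simp only [mem_ofPred_eq, map_add, map_smul, smul_eq_mul] at ha hb ⊢
        rcases hs.eq_or_lt with rfl | hs'
        · have : t = 1 := by linarith
          subst this; linarith
        · have h1 := mul_lt_mul_of_pos_left ha hs'
          have h2 := mul_le_mul_of_nonneg_left hb.le ht
          have h3 : s * c + t * c = c := by rw [← add_mul, hst, one_mul]
          linarith
      · have hb' : l b = c := hsub hb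
        rcases hs.eq_or_lt with rfl | hs'
        · right
          have : t = 1 := by linarith
          subst this
          simpa using hb
        · left
          simp only [mem_ofPred_eq, map_add, map_smul, smul_eq_mul] at ha ⊢
          rw [hb']
          have : t = 1 - s := by linarith
          subst this
          nlinarith
      · have ha' : l a = c := hsub ha
        rcases ht.eq_or_lt with rfl | ht'
        · right
          have : s = 1 := by linarith
          subst this
          simpa using ha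
        · left
          simp only [mem_ofPred_eq, map_add, map_smul, smul_eq_mul] at hb ⊢
          rw [ha']
          have : s = 1 - t := by linarith
          subst this
          nlinarith
      · right
        exact (convex_convexHull ℝ _) ha hb hs ht hst
    have hVK : V ⊆ {x | l x < c} ∪ convexHull ℝ {x ∈ V | l x = c} := by
      intro y hy
      rcases (h y hy).lt_or_eq with h1 | h1
      · exact Or.inl h1
      · exact Or.inr (subset_convexHull ℝ _ ⟨hy, h1⟩)
    rcases convexHull_min hVK hK hx with h1 | h1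
    · exact absurd hxc (ne_of_lt h1)
    · exact h1
  · intro x hx
    refine ⟨convexHull_mono (fun y hy => hy.1) hx, ?_⟩
    have hsub : convexHull ℝ {x ∈ V | l x = c} ⊆ {x | l x = c} := by
      apply convexHull_min
      · rintro y ⟨-, hy⟩; exact hy
      · exact convex_hyperplane l.isLinear c
    exact hsub hx

theorem vectorSpan_convexHull (V : Set E3) :
    vectorSpan ℝ (convexHull ℝ V) = vectorSpan ℝ V := by
  rw [← direction_affineSpan, affineSpan_convexHull, direction_affineSpan]

theorem finrank_le_one_of_subset_pair {F : Set E3} {u v : E3} (h : F ⊆ {u, v}) :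
    Module.finrank ℝ (vectorSpan ℝ F) ≤ 1 := by
  have h1 : vectorSpan ℝ F ≤ vectorSpan ℝ ({u, v} : Set E3) := vectorSpan_mono ℝ h
  refine (Submodule.finrank_mono h1).trans ?_
  rw [vectorSpan_pair]
  exact (finrank_span_le_card _).trans (by simp)

/-! ### The polyhedra -/

/-- The six vertices of the dome with ridge height `h`. -/
def verts (h : ℝ) : Set E3 :=
  {pt 3 1 0, pt 3 (-1) 0, pt (-3) 1 0, pt (-3) (-1) 0, pt 2 0 h, pt (-2) 0 h}

/-- The four corners of the base rectangle. -/
def corners : Set E3 := {pt 3 1 0, pt 3 (-1) 0, pt (-3) 1 0, pt (-3) (-1) 0}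

/-- The dome with ridge height `h`. -/
def dome (h : ℝ) : Set E3 := convexHull ℝ (verts h)

/-- The base rectangle. -/
def X : Set E3 := convexHull ℝ corners

theorem corners_subset (h : ℝ) : corners ⊆ verts h := by
  intro p hp
  simp only [corners, verts, mem_insert_iff, mem_singleton_iff] at hp ⊢
  tauto

theorem X_subset_dome (h : ℝ) : X ⊆ dome h := convexHull_mono (corners_subset h)

theorem forall_verts {h : ℝ} {p : E3 → Prop} : (∀ x ∈ verts h, p x) ↔
    p (pt 3 1 0) ∧ p (pt 3 (-1) 0) ∧ p (pt (-3) 1 0) ∧ p (pt (-3) (-1) 0) ∧ p (pt 2 0 h) ∧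
      p (pt (-2) 0 h) := by
  simp [verts]

theorem forall_corners {p : E3 → Prop} : (∀ x ∈ corners, p x) ↔
    p (pt 3 1 0) ∧ p (pt 3 (-1) 0) ∧ p (pt (-3) 1 0) ∧ p (pt (-3) (-1) 0) := by
  simp [corners]

theorem dome_le {h : ℝ} {a b c d : ℝ} (h1 : 3 * a + b ≤ d) (h2 : 3 * a - b ≤ d)
    (h3 : -3 * a + b ≤ d) (h4 : -3 * a - b ≤ d) (h5 : 2 * a + c * h ≤ d)
    (h6 : -2 * a + c * h ≤ d) {x : E3} (hx : x ∈ dome h) : a * x 0 + b * x 1 + c * x 2 ≤ d := by
  have : dome h ⊆ {x | fn a b c x ≤ d} := by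
    apply convexHull_min
    · rw [show (verts h ⊆ {x | fn a b c x ≤ d}) ↔ ∀ x ∈ verts h, fn a b c x ≤ d from Iff.rfl,
        forall_verts]
      simp only [fn_apply, pt_zero, pt_one, pt_two]
      refine ⟨?_, ?_, ?_, ?_, ?_, ?_⟩ <;> linarith
    · exact convex_halfSpace_le (fn a b c).isLinear d
  exact this hx

theorem X_eq (p : E3) (hp : p ∈ X) : -3 ≤ p 0 ∧ p 0 ≤ 3 ∧ -1 ≤ p 1 ∧ p 1 ≤ 1 ∧ p 2 = 0 := by
  have hp' := X_subset_dome 0 hp
  have h1 := dome_le (h := 0) (a := -1) (b := 0) (c := 0) (d := 3) (by norm_num) (by norm_num)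
    (by norm_num) (by norm_num) (by norm_num) (by norm_num) hp'
  have h2 := dome_le (h := 0) (a := 1) (b := 0) (c := 0) (d := 3) (by norm_num) (by norm_num)
    (by norm_num) (by norm_num) (by norm_num) (by norm_num) hp'
  have h3 := dome_le (h := 0) (a := 0) (b := -1) (c := 0) (d := 1) (by norm_num) (by norm_num)
    (by norm_num) (by norm_num) (by norm_num) (by norm_num) hp'
  have h4 := dome_le (h := 0) (a := 0) (b := 1) (c := 0) (d := 1) (by norm_num) (by norm_num)
    (by norm_num) (by norm_num) (by norm_num) (by norm_num) hp'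
  have h5 := dome_le (h := 0) (a := 0) (b := 0) (c := 1) (d := 0) (by norm_num) (by norm_num)
    (by norm_num) (by norm_num) (by norm_num) (by norm_num) hp'
  have h6 := dome_le (h := 0) (a := 0) (b := 0) (c := -1) (d := 0) (by norm_num) (by norm_num)
    (by norm_num) (by norm_num) (by norm_num) (by norm_num) hp'
  refine ⟨by linarith, by linarith, by linarith, by linarith, by linarith⟩

/-- The affine map used to see that a set has large span: three points of `F` whose differences
are two independent vectors. -/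
theorem two_le_finrank {F : Set E3} {p q r : E3} (hp : p ∈ F) (hq : q ∈ F) (hr : r ∈ F)
    (hli : LinearIndependent ℝ ![q - p, r - p]) :
    2 ≤ Module.finrank ℝ (vectorSpan ℝ F) := by
  have h1 : Submodule.span ℝ (Set.range ![q - p, r - p]) ≤ vectorSpan ℝ F := by
    rw [Submodule.span_le]
    rintro _ ⟨i, rfl⟩
    fin_cases i
    · exact vsub_mem_vectorSpan ℝ hq hp
    · exact vsub_mem_vectorSpan ℝ hr hp
  have h2 := finrank_span_eq_card hli
  have h3 := Submodule.finrank_mono h1
  rw [h2] at h3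
  simpa using h3

/-- The side of the base rectangle on the line `x = 3 s` or `y = s`. -/
def sideX (s : ℝ) : Set E3 := {p ∈ X | s * p 0 = 3}
def sideY (s : ℝ) : Set E3 := {p ∈ X | s * p 1 = 1}

theorem corner_mem (s t : ℝ) (hs : s = 1 ∨ s = -1) (ht : t = 1 ∨ t = -1) :
    pt (3 * s) t 0 ∈ X := by
  apply subset_convexHull
  rcases hs with rfl | rfl <;> rcases ht with rfl | rfl <;> simp [corners]

theorem hull_pair_finrank {u v : E3} (h : u ≠ v) :
    Module.finrank ℝ (vectorSpan ℝ (convexHull ℝ ({u, v} : Set E3))) = 1 := by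
  rw [vectorSpan_convexHull, vectorSpan_pair]
  apply finrank_span_singleton
  rwa [vsub_eq_sub, sub_ne_zero]

theorem sideX_eq {s : ℝ} (hs : s = 1 ∨ s = -1) :
    sideX s = convexHull ℝ {pt (3 * s) 1 0, pt (3 * s) (-1) 0} := by
  have h := support_hull corners (fn s 0 0) 3 (by
    rw [forall_corners]
    simp only [fn_apply, pt_zero, pt_one, pt_two]
    rcases hs with rfl | rfl <;> norm_num)
  have h1 : sideX s = {x ∈ convexHull ℝ corners | fn s 0 0 x = 3} := by
    ext p
    simp [sideX, X]
  rw [h1, h]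
  congr 1
  ext p
  simp only [corners, mem_ofPred_eq, mem_insert_iff, mem_singleton_iff]
  rcases hs with rfl | rfl
  · constructor
    · rintro ⟨rfl | rfl | rfl | rfl, h⟩ <;> simp at h <;> norm_num at h <;> simp
    · rintro (rfl | rfl) <;> simp
  · constructor
    · rintro ⟨rfl | rfl | rfl | rfl, h⟩ <;> simp at h <;> norm_num at h <;> simp
    · rintro (rfl | rfl) <;> simp

theorem sideY_eq {s : ℝ} (hs : s = 1 ∨ s = -1) :
    sideY s = convexHull ℝ {pt 3 s 0, pt (-3) s 0} := by
  have h := support_hull corners (fn 0 s 0) 1 (by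
    rw [forall_corners]
    simp only [fn_apply, pt_zero, pt_one, pt_two]
    rcases hs with rfl | rfl <;> norm_num)
  have h1 : sideY s = {x ∈ convexHull ℝ corners | fn 0 s 0 x = 1} := by
    ext p
    simp [sideY, X]
  rw [h1, h]
  congr 1
  ext p
  simp only [corners, mem_ofPred_eq, mem_insert_iff, mem_singleton_iff]
  rcases hs with rfl | rfl
  · constructor
    · rintro ⟨rfl | rfl | rfl | rfl, h⟩ <;> simp at h <;> norm_num at h <;> simp
    · rintro (rfl | rfl) <;> simp
  · constructor
    · rintro ⟨rfl | rfl | rfl | rfl, h⟩ <;> simp at h <;> norm_num at h <;> simp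
    · rintro (rfl | rfl) <;> simp

theorem isEdge_sideX {s : ℝ} (hs : s = 1 ∨ s = -1) : IsEdge X (sideX s) := by
  refine ⟨⟨fn s 0 0, 3, fn_ne_zero (by rcases hs with rfl | rfl <;> norm_num), ?_, ?_, ?_⟩, ?_⟩
  · intro x hx
    obtain ⟨h1, h2, h3, h4, h5⟩ := X_eq x hx
    rcases hs with rfl | rfl <;> simp <;> linarith
  · ext p; simp [sideX]
  · rw [sideX_eq hs]
    exact ⟨_, subset_convexHull ℝ _ (by simp; left; rfl)⟩
  · rw [sideX_eq hs]
    apply hull_pair_finrank
    intro h
    have := congrArg (fun p : E3 => p 1) h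
    simp at this
    norm_num at this

theorem isEdge_sideY {s : ℝ} (hs : s = 1 ∨ s = -1) : IsEdge X (sideY s) := by
  refine ⟨⟨fn 0 s 0, 1, fn_ne_zero (by rcases hs with rfl | rfl <;> norm_num), ?_, ?_, ?_⟩, ?_⟩
  · intro x hx
    obtain ⟨h1, h2, h3, h4, h5⟩ := X_eq x hx
    rcases hs with rfl | rfl <;> simp <;> linarith
  · ext p; simp [sideY]
  · rw [sideY_eq hs]
    exact ⟨_, subset_convexHull ℝ _ (by simp; left; rfl)⟩
  · rw [sideY_eq hs]
    apply hull_pair_finrank
    intro h
    have := congrArg (fun p : E3 => p 0) h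
    simp at this
    norm_num at this

theorem two_le_finrank_X : 2 ≤ Module.finrank ℝ (vectorSpan ℝ X) := by
  refine two_le_finrank (p := pt (-3) (-1) 0) (q := pt 3 (-1) 0) (r := pt (-3) 1 0)
    (subset_convexHull ℝ _ (by simp [corners])) (subset_convexHull ℝ _ (by simp [corners]))
    (subset_convexHull ℝ _ (by simp [corners])) ?_
  rw [LinearIndependent.pair_iff]
  intro s t h
  have h0 := congrArg (fun p : E3 => p 0) h
  have h1 := congrArg (fun p : E3 => p 1) h
  simp at h0 h1
  exact ⟨h0, h1⟩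

theorem finrank_le_two {F : Set E3} {l : E3 →ₗ[ℝ] ℝ} {c : ℝ} (hl : l ≠ 0)
    (hF : ∀ x ∈ F, l x = c) : Module.finrank ℝ (vectorSpan ℝ F) ≤ 2 := by
  have h1 : vectorSpan ℝ F ≤ LinearMap.ker l := by
    rw [vectorSpan_def, Submodule.span_le]
    rintro _ ⟨x, hx, y, hy, rfl⟩
    simp [hF x hx, hF y hy]
  have h2 : Module.finrank ℝ (LinearMap.ker l) < Module.finrank ℝ E3 := by
    apply Submodule.finrank_lt
    intro h
    exact hl (LinearMap.ker_eq_top.1 h)
  have h3 := Submodule.finrank_mono h1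
  have h4 : Module.finrank ℝ E3 = 3 := by simp
  omega

/-- Every edge of the base rectangle is one of its four sides. -/
theorem edge_X {e : Set E3} (h : IsEdge X e) :
    (∃ s : ℝ, (s = 1 ∨ s = -1) ∧ e = sideX s) ∨ ∃ s : ℝ, (s = 1 ∨ s = -1) ∧ e = sideY s := by
  obtain ⟨⟨l, c, hl, hle, rfl, q, hq, hqc⟩, hfin⟩ := h
  have hc : ∀ x ∈ corners, l x ≤ c := fun x hx => hle x (subset_convexHull ℝ _ hx)
  rw [forall_corners] at hc
  obtain ⟨h1, h2, h3, h4⟩ := hc
  rw [functional_eq] at h1 h2 h3 h4 hqc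
  simp only [pt_zero, pt_one, pt_two] at h1 h2 h3 h4
  obtain ⟨q1, q2, q3, q4, q5⟩ := X_eq q hq
  rw [q5] at hqc
  set a := l (pt 1 0 0) with ha
  set b := l (pt 0 1 0) with hb
  set g := l (pt 0 0 1) with hg
  have hdesc : ∀ p : E3, p ∈ X → l p = a * p 0 + b * p 1 := by
    intro p hp
    rw [functional_eq, (X_eq p hp).2.2.2.2]
    ring
  have hpoint : ∀ u : E3, ¬ ({x ∈ X | l x = c} ⊆ {u}) := by
    intro u hu
    have : vectorSpan ℝ {x ∈ X | l x = c} = ⊥ := by
      rw [eq_bot_iff]
      exact (vectorSpan_mono ℝ hu).trans (by rw [vectorSpan_singleton])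
    rw [this] at hfin
    simp at hfin
  rcases lt_trichotomy a 0 with ha0 | ha0 | ha0 <;> rcases lt_trichotomy b 0 with hb0 | hb0 | hb0
  · exfalso
    refine hpoint (pt (-3) (-1) 0) ?_
    rintro p ⟨hp, hpc⟩
    obtain ⟨p1, p2, p3, p4, p5⟩ := X_eq p hp
    rw [hdesc p hp] at hpc
    have e1 : p 0 = -3 := by nlinarith
    have e2 : p 1 = -1 := by nlinarith
    exact ext3 e1 e2 p5
  · left
    refine ⟨-1, Or.inr rfl, ?_⟩
    have hc3 : c = -3 * a := by nlinarith
    ext p
    simp only [sideX, mem_ofPred_eq]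
    refine and_congr_right fun hp => ?_
    rw [hdesc p hp, hb0, hc3]
    constructor
    · intro h
      have : a * (p 0 + 3) = 0 := by linarith
      rcases mul_eq_zero.1 this with h | h <;> linarith
    · intro h
      have : p 0 = -3 := by linarith
      rw [this]; ring
  · exfalso
    refine hpoint (pt (-3) 1 0) ?_
    rintro p ⟨hp, hpc⟩
    obtain ⟨p1, p2, p3, p4, p5⟩ := X_eq p hp
    rw [hdesc p hp] at hpc
    have e1 : p 0 = -3 := by nlinarith
    have e2 : p 1 = 1 := by nlinarith
    exact ext3 e1 e2 p5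
  · right
    refine ⟨-1, Or.inr rfl, ?_⟩
    have hc3 : c = -b := by nlinarith
    ext p
    simp only [sideY, mem_ofPred_eq]
    refine and_congr_right fun hp => ?_
    rw [hdesc p hp, ha0, hc3]
    constructor
    · intro h
      have : b * (p 1 + 1) = 0 := by linarith
      rcases mul_eq_zero.1 this with h | h <;> linarith
    · intro h
      have : p 1 = -1 := by linarith
      rw [this]; ring
  · exfalso
    have hc0 : c = 0 := by rw [ha0, hb0] at hqc; linarith
    have : {x ∈ X | l x = c} = X := by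
      ext p
      simp only [mem_ofPred_eq, and_iff_left_iff_imp]
      intro hp
      rw [hdesc p hp, ha0, hb0, hc0]; ring
    rw [this] at hfin
    have := two_le_finrank_X
    omega
  · right
    refine ⟨1, Or.inl rfl, ?_⟩
    have hc3 : c = b := by nlinarith
    ext p
    simp only [sideY, mem_ofPred_eq]
    refine and_congr_right fun hp => ?_
    rw [hdesc p hp, ha0, hc3]
    constructor
    · intro h
      have : b * (p 1 - 1) = 0 := by linarith
      rcases mul_eq_zero.1 this with h | h <;> linarith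
    · intro h
      have : p 1 = 1 := by linarith
      rw [this]; ring
  · exfalso
    refine hpoint (pt 3 (-1) 0) ?_
    rintro p ⟨hp, hpc⟩
    obtain ⟨p1, p2, p3, p4, p5⟩ := X_eq p hp
    rw [hdesc p hp] at hpc
    have e1 : p 0 = 3 := by nlinarith
    have e2 : p 1 = -1 := by nlinarith
    exact ext3 e1 e2 p5
  · left
    refine ⟨1, Or.inl rfl, ?_⟩
    have hc3 : c = 3 * a := by nlinarith
    ext p
    simp only [sideX, mem_ofPred_eq]
    refine and_congr_right fun hp => ?_
    rw [hdesc p hp, hb0, hc3]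
    constructor
    · intro h
      have : a * (p 0 - 3) = 0 := by linarith
      rcases mul_eq_zero.1 this with h | h <;> linarith
    · intro h
      have : p 0 = 3 := by linarith
      rw [this]; ring
  · exfalso
    refine hpoint (pt 3 1 0) ?_
    rintro p ⟨hp, hpc⟩
    obtain ⟨p1, p2, p3, p4, p5⟩ := X_eq p hp
    rw [hdesc p hp] at hpc
    have e1 : p 0 = 3 := by nlinarith
    have e2 : p 1 = 1 := by nlinarith
    exact ext3 e1 e2 p5

/-! ### The domes -/

theorem dome_base {h : ℝ} (hh : 0 < h) : {x ∈ dome h | x 2 = 0} = X := by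
  have h1 := support_hull (verts h) (fn 0 0 (-1)) 0 (by
    rw [forall_verts]
    simp only [fn_apply, pt_zero, pt_one, pt_two]
    refine ⟨?_, ?_, ?_, ?_, ?_, ?_⟩ <;> linarith)
  have h2 : {x ∈ dome h | x 2 = 0} = {x ∈ convexHull ℝ (verts h) | fn 0 0 (-1) x = 0} := by
    ext p; simp [dome]
  rw [h2, h1, X]
  congr 1
  ext p
  simp only [verts, corners, mem_ofPred_eq, mem_insert_iff, mem_singleton_iff]
  constructor
  · rintro ⟨rfl | rfl | rfl | rfl | rfl | rfl, h⟩ <;> simp at h ⊢
    · exact absurd h hh.ne'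
    · exact absurd h hh.ne'
  · rintro (rfl | rfl | rfl | rfl) <;> simp

theorem dome_z_nonneg {h : ℝ} (hh : 0 < h) {x : E3} (hx : x ∈ dome h) : 0 ≤ x 2 := by
  have := dome_le (h := h) (a := 0) (b := 0) (c := -1) (d := 0) (by norm_num) (by norm_num)
    (by norm_num) (by norm_num) (by linarith) (by linarith) hx
  linarith

theorem isFace_X {h : ℝ} (hh : 0 < h) : IsFace (dome h) X := by
  have h1 : ∀ x ∈ X, fn 0 0 (-1) x = 0 := by
    intro x hx
    simp [(X_eq x hx).2.2.2.2]
  have hne : fn 0 0 (-1) ≠ 0 := fn_ne_zero (by norm_num)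
  refine ⟨⟨fn 0 0 (-1), 0, hne, ?_, ?_, ?_⟩, ?_⟩
  · intro x hx
    have := dome_z_nonneg hh hx
    simp; linarith
  · rw [← dome_base hh]
    ext p; simp
  · exact ⟨_, corner_mem 1 1 (Or.inl rfl) (Or.inl rfl)⟩
  · exact le_antisymm (finrank_le_two hne h1) two_le_finrank_X

theorem vectorSpan_verts {h : ℝ} (hh : 0 < h) : vectorSpan ℝ (verts h) = ⊤ := by
  rw [eq_top_iff]
  intro w _
  have m1 : pt 3 1 0 -ᵥ pt (-3) 1 0 ∈ vectorSpan ℝ (verts h) :=
    vsub_mem_vectorSpan ℝ (by simp [verts]) (by simp [verts])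
  have m2 : pt 3 1 0 -ᵥ pt 3 (-1) 0 ∈ vectorSpan ℝ (verts h) :=
    vsub_mem_vectorSpan ℝ (by simp [verts]) (by simp [verts])
  have m3 : pt 2 0 h -ᵥ pt 3 1 0 ∈ vectorSpan ℝ (verts h) :=
    vsub_mem_vectorSpan ℝ (by simp [verts]) (by simp [verts])
  have key : w = ((w 0 + w 2 / h) / 6) • (pt 3 1 0 -ᵥ pt (-3) 1 0) +
      ((w 1 + w 2 / h) / 2) • (pt 3 1 0 -ᵥ pt 3 (-1) 0) + (w 2 / h) • (pt 2 0 h -ᵥ pt 3 1 0) := by
    have hne := hh.ne'
    apply ext3 <;> simp <;> field_simp <;> ring
  rw [key]
  exact add_mem (add_mem (Submodule.smul_mem _ _ m1) (Submodule.smul_mem _ _ m2))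
    (Submodule.smul_mem _ _ m3)

theorem isConvexPolyhedron_dome {h : ℝ} (hh : 0 < h) : IsConvexPolyhedron (dome h) := by
  classical
  constructor
  · refine ⟨{pt 3 1 0, pt 3 (-1) 0, pt (-3) 1 0, pt (-3) (-1) 0, pt 2 0 h, pt (-2) 0 h}, ?_⟩
    simp [dome, verts]
  · rw [dome, interior_convexHull_nonempty_iff_affineSpan_eq_top]
    have hne : (verts h).Nonempty := ⟨pt 3 1 0, by simp [verts]⟩
    rw [← AffineSubspace.direction_eq_top_iff_of_nonempty, direction_affineSpan,
      vectorSpan_verts hh]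
    exact hne.affineSpan ℝ

/-- Every face of the dome other than the base contains a side of the base as an edge. -/
theorem face_dome {h : ℝ} (hh : 0 < h) {F : Set E3} (hF : IsFace (dome h) F) (hFX : F ≠ X) :
    ∃ e, IsEdge X e ∧ IsEdge F e := by
  obtain ⟨⟨l, c, hl, hle, hFeq, hne⟩, hfin⟩ := hF
  have hc : ∀ x ∈ verts h, l x ≤ c := fun x hx => hle x (subset_convexHull ℝ _ hx)
  have hhull : F = convexHull ℝ {x ∈ verts h | l x = c} := by
    rw [hFeq, dome, support_hull _ _ _ hc]
  have key : ∀ u v : E3, ¬ ({x ∈ verts h | l x = c} ⊆ {u, v}) := by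
    intro u v huv
    have := finrank_le_one_of_subset_pair huv
    rw [← vectorSpan_convexHull, ← hhull, hfin] at this
    omega
  rw [forall_verts] at hc
  obtain ⟨h1, h2, h3, h4, h5, h6⟩ := hc
  rw [functional_eq] at h1 h2 h3 h4 h5 h6
  simp only [pt_zero, pt_one, pt_two] at h1 h2 h3 h4 h5 h6
  have hval : ∀ p : E3, l p = l (pt 1 0 0) * p 0 + l (pt 0 1 0) * p 1 + l (pt 0 0 1) * p 2 :=
    functional_eq l
  set a := l (pt 1 0 0) with ha
  set b := l (pt 0 1 0) with hb
  set g := l (pt 0 0 1) with hg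
  have base : ∀ (e : Set E3), IsEdge X e → (∀ x ∈ X, (l x = c ↔ x ∈ e)) → e ⊆ X → IsEdge F e := by
    intro e he hx heX
    refine ⟨⟨fn 0 0 (-1), 0, fn_ne_zero (by norm_num), ?_, ?_, he.1.choose_spec.choose_spec.2.2.2⟩,
      he.2⟩
    · intro x hx
      rw [hFeq] at hx
      have := dome_z_nonneg hh hx.1
      simp; linarith
    · ext x
      simp only [hFeq, fn_apply, mem_ofPred_eq]
      constructor
      · intro hxe
        have hxX := heX hxe
        refine ⟨⟨X_subset_dome h hxX, (hx x hxX).2 hxe⟩, ?_⟩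
        rw [(X_eq x hxX).2.2.2.2]; ring
      · rintro ⟨⟨hxd, hxc⟩, hx0⟩
        have hxX : x ∈ X := by
          rw [← dome_base hh]
          exact ⟨hxd, by linarith⟩
        exact (hx x hxX).1 hxc
  rcases lt_trichotomy a 0 with ha0 | ha0 | ha0 <;> rcases lt_trichotomy b 0 with hb0 | hb0 | hb0
  · exfalso
    refine key (pt (-3) (-1) 0) (pt (-2) 0 h) ?_
    rintro p ⟨hp, hpc⟩
    simp only [verts, mem_insert_iff, mem_singleton_iff] at hp ⊢
    rw [hval] at hpc
    rcases hp with rfl | rfl | rfl | rfl | rfl | rfl <;> simp only [pt_zero, pt_one, pt_two] at hpc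
    all_goals first | (left; rfl) | (right; rfl) | (exfalso; linarith)
  · -- a < 0, b = 0
    have hc3 : c = -3 * a := by
      by_contra hcne
      refine key (pt (-2) 0 h) (pt (-2) 0 h) ?_
      rintro p ⟨hp, hpc⟩
      simp only [verts, mem_insert_iff, mem_singleton_iff] at hp ⊢
      rw [hval] at hpc
      rcases hp with rfl | rfl | rfl | rfl | rfl | rfl <;>
        simp only [pt_zero, pt_one, pt_two] at hpc
      all_goals first | (left; rfl) | (exfalso; apply hcne; linarith) | (exfalso; linarith)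
    refine ⟨sideX (-1), isEdge_sideX (Or.inr rfl), base _ (isEdge_sideX (Or.inr rfl)) ?_
      (fun x hx => hx.1)⟩
    intro x hx
    rw [hval, hb0, (X_eq x hx).2.2.2.2, hc3]
    simp only [sideX, mem_ofPred_eq, hx, true_and]
    constructor
    · intro h
      have : a * (x 0 + 3) = 0 := by linarith
      rcases mul_eq_zero.1 this with h | h <;> linarith
    · intro h
      have : x 0 = -3 := by linarith
      rw [this]; ring
  · exfalso
    refine key (pt (-3) 1 0) (pt (-2) 0 h) ?_
    rintro p ⟨hp, hpc⟩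
    simp only [verts, mem_insert_iff, mem_singleton_iff] at hp ⊢
    rw [hval] at hpc
    rcases hp with rfl | rfl | rfl | rfl | rfl | rfl <;> simp only [pt_zero, pt_one, pt_two] at hpc
    all_goals first | (left; rfl) | (right; rfl) | (exfalso; linarith)
  · -- a = 0, b < 0
    have hc3 : c = -b := by
      by_contra hcne
      refine key (pt 2 0 h) (pt (-2) 0 h) ?_
      rintro p ⟨hp, hpc⟩
      simp only [verts, mem_insert_iff, mem_singleton_iff] at hp ⊢
      rw [hval] at hpc
      rcases hp with rfl | rfl | rfl | rfl | rfl | rfl <;>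
        simp only [pt_zero, pt_one, pt_two] at hpc
      all_goals first | (left; rfl) | (right; rfl) | (exfalso; apply hcne; linarith) |
        (exfalso; linarith)
    refine ⟨sideY (-1), isEdge_sideY (Or.inr rfl), base _ (isEdge_sideY (Or.inr rfl)) ?_
      (fun x hx => hx.1)⟩
    intro x hx
    rw [hval, ha0, (X_eq x hx).2.2.2.2, hc3]
    simp only [sideY, mem_ofPred_eq, hx, true_and]
    constructor
    · intro h
      have : b * (x 1 + 1) = 0 := by linarith
      rcases mul_eq_zero.1 this with h | h <;> linarith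
    · intro h
      have : x 1 = -1 := by linarith
      rw [this]; ring
  · -- a = 0, b = 0
    exfalso
    rcases lt_trichotomy g 0 with hg0 | hg0 | hg0
    · obtain ⟨q, hq⟩ := hne
      rw [hFeq] at hq
      have hqz := dome_z_nonneg hh hq.1
      have hc0 : c = 0 := by
        have := hq.2
        rw [hval, ha0, hb0] at this
        have h0 : 0 ≤ c := by rw [ha0, hb0] at h1; linarith
        nlinarith
      apply hFX
      rw [hFeq, ← dome_base hh]
      ext x
      simp only [mem_ofPred_eq]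
      refine and_congr_right fun hx => ?_
      rw [hval, ha0, hb0, hc0]
      constructor
      · intro h
        have : g * x 2 = 0 := by linarith
        rcases mul_eq_zero.1 this with h | h
        · linarith
        · exact h
      · intro h
        rw [h]; ring
    · exact hl (functional_ext ha0 hb0 hg0)
    · have hgh : 0 < g * h := mul_pos hg0 hh
      refine key (pt 2 0 h) (pt (-2) 0 h) ?_
      rintro p ⟨hp, hpc⟩
      simp only [verts, mem_insert_iff, mem_singleton_iff] at hp ⊢
      rw [hval] at hpc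
      rcases hp with rfl | rfl | rfl | rfl | rfl | rfl <;>
        simp only [pt_zero, pt_one, pt_two] at hpc
      all_goals first | (left; rfl) | (right; rfl) | (exfalso; linarith)
  · -- a = 0, b > 0
    have hc3 : c = b := by
      by_contra hcne
      refine key (pt 2 0 h) (pt (-2) 0 h) ?_
      rintro p ⟨hp, hpc⟩
      simp only [verts, mem_insert_iff, mem_singleton_iff] at hp ⊢
      rw [hval] at hpc
      rcases hp with rfl | rfl | rfl | rfl | rfl | rfl <;>
        simp only [pt_zero, pt_one, pt_two] at hpc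
      all_goals first | (left; rfl) | (right; rfl) | (exfalso; apply hcne; linarith) |
        (exfalso; linarith)
    refine ⟨sideY 1, isEdge_sideY (Or.inl rfl), base _ (isEdge_sideY (Or.inl rfl)) ?_
      (fun x hx => hx.1)⟩
    intro x hx
    rw [hval, ha0, (X_eq x hx).2.2.2.2, hc3]
    simp only [sideY, mem_ofPred_eq, hx, true_and]
    constructor
    · intro h
      have : b * (x 1 - 1) = 0 := by linarith
      rcases mul_eq_zero.1 this with h | h <;> linarith
    · intro h
      have : x 1 = 1 := by linarith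
      rw [this]; ring
  · exfalso
    refine key (pt 3 (-1) 0) (pt 2 0 h) ?_
    rintro p ⟨hp, hpc⟩
    simp only [verts, mem_insert_iff, mem_singleton_iff] at hp ⊢
    rw [hval] at hpc
    rcases hp with rfl | rfl | rfl | rfl | rfl | rfl <;> simp only [pt_zero, pt_one, pt_two] at hpc
    all_goals first | (left; rfl) | (right; rfl) | (exfalso; linarith)
  · -- a > 0, b = 0
    have hc3 : c = 3 * a := by
      by_contra hcne
      refine key (pt 2 0 h) (pt 2 0 h) ?_
      rintro p ⟨hp, hpc⟩
      simp only [verts, mem_insert_iff, mem_singleton_iff] at hp ⊢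
      rw [hval] at hpc
      rcases hp with rfl | rfl | rfl | rfl | rfl | rfl <;>
        simp only [pt_zero, pt_one, pt_two] at hpc
      all_goals first | (left; rfl) | (exfalso; apply hcne; linarith) | (exfalso; linarith)
    refine ⟨sideX 1, isEdge_sideX (Or.inl rfl), base _ (isEdge_sideX (Or.inl rfl)) ?_
      (fun x hx => hx.1)⟩
    intro x hx
    rw [hval, hb0, (X_eq x hx).2.2.2.2, hc3]
    simp only [sideX, mem_ofPred_eq, hx, true_and]
    constructor
    · intro h
      have : a * (x 0 - 3) = 0 := by linarith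
      rcases mul_eq_zero.1 this with h | h <;> linarith
    · intro h
      have : x 0 = 3 := by linarith
      rw [this]; ring
  · exfalso
    refine key (pt 3 1 0) (pt 2 0 h) ?_
    rintro p ⟨hp, hpc⟩
    simp only [verts, mem_insert_iff, mem_singleton_iff] at hp ⊢
    rw [hval] at hpc
    rcases hp with rfl | rfl | rfl | rfl | rfl | rfl <;> simp only [pt_zero, pt_one, pt_two] at hpc
    all_goals first | (left; rfl) | (right; rfl) | (exfalso; linarith)

theorem isDome_dome {h : ℝ} (hh : 0 < h) : IsDome (dome h) X :=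
  ⟨isConvexPolyhedron_dome hh, isFace_X hh, fun _ hF hFX => face_dome hh hF hFX⟩

/-! ### A set with three parallel edge lines is not a pyramid -/

theorem off_plane {Q : Set E3} {B : Finset E3} {v : E3}
    (hQ : Q = convexHull ℝ (insert v (B : Set E3))) {f : E3 →ₗ[ℝ] ℝ} {c : ℝ}
    (hf : ∀ x ∈ Q, f x ≤ c) (hv : f v < c) {q : E3} (hq : q ∈ Q) (hqc : f q = c) :
    q ∈ convexHull ℝ (B : Set E3) := by
  have h1 := support_hull (insert v (B : Set E3)) f c (fun x hx => hf x (by
    rw [hQ]; exact subset_convexHull ℝ _ hx))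
  have h2 : q ∈ {x ∈ convexHull ℝ (insert v (B : Set E3)) | f x = c} := ⟨hQ ▸ hq, hqc⟩
  rw [h1] at h2
  refine convexHull_mono ?_ h2
  rintro x ⟨rfl | hx, hxc⟩
  · exact absurd hxc hv.ne
  · exact hx

theorem on_line {Q : Set E3} {B : Finset E3} {v : E3} (hB : (B : Set E3).Nonempty)
    (hQ : Q = convexHull ℝ (insert v (B : Set E3))) {f g : E3 →ₗ[ℝ] ℝ} {c d : ℝ}
    (hf : ∀ x ∈ Q, f x ≤ c) (hg : ∀ x ∈ Q, g x ≤ d) {q : E3} (hq : q ∈ Q) (hqv : q ≠ v)
    (hqc : f q = c) (hqd : g q = d) :
    ∃ b ∈ convexHull ℝ (B : Set E3), f b = c ∧ g b = d := by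
  have hq' := hq
  rw [hQ, convexHull_insert hB, mem_convexJoin] at hq'
  obtain ⟨v', hv', b, hb, hseg⟩ := hq'
  rw [mem_singleton_iff] at hv'
  subst hv'
  obtain ⟨s, t, hs, ht, hst, rfl⟩ := hseg
  have hbQ : b ∈ Q := by
    rw [hQ]
    exact convexHull_mono (subset_insert _ _) hb
  have hvQ : v' ∈ Q := by
    rw [hQ]
    exact subset_convexHull ℝ _ (mem_insert _ _)
  have ht' : 0 < t := by
    rcases ht.eq_or_lt with h | h
    · exfalso
      apply hqv
      have : s = 1 := by linarith
      rw [← h, this]; simp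
    · exact h
  have hs' : s = 1 - t := by linarith
  subst hs'
  simp only [map_add, map_smul, smul_eq_mul] at hqc hqd
  refine ⟨b, hb, le_antisymm (hf b hbQ) ?_, le_antisymm (hg b hbQ) ?_⟩
  · have h1 := mul_le_mul_of_nonneg_left (hf v' hvQ) hs
    have h2 : t * c ≤ t * f b := by linarith
    exact le_of_mul_le_mul_left h2 ht'
  · have h1 := mul_le_mul_of_nonneg_left (hg v' hvQ) hs
    have h2 : t * d ≤ t * g b := by linarith
    exact le_of_mul_le_mul_left h2 ht'

theorem aux {Q : Set E3} {B : Finset E3} {v : E3}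
    (hfin : Module.finrank ℝ (vectorSpan ℝ (B : Set E3)) = 2)
    (hQ : Q = convexHull ℝ (insert v (B : Set E3))) {u : E3} (hu : u ≠ 0)
    {f g k : E3 →ₗ[ℝ] ℝ} {c d e : ℝ} (hf : ∀ x ∈ Q, f x ≤ c) (hg : ∀ x ∈ Q, g x ≤ d)
    (hk : ∀ x ∈ Q, k x ≤ e) (fu : f u = 0) (gu : g u = 0) (ku : k u = 0)
    (no : ∀ x, ¬ (f x = c ∧ g x = d ∧ k x = e)) {p q r : E3}
    (hp : p ∈ Q ∧ p + u ∈ Q ∧ f p = c ∧ g p = d) (hq : q ∈ Q ∧ q + u ∈ Q ∧ f q = c ∧ k q = e)
    (hr : r ∈ Q ∧ g r = d ∧ k r = e) (hv : k v < e) : False := by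
  have hB : (B : Set E3).Nonempty := by
    rw [nonempty_iff_ne_empty]
    intro h
    rw [h, vectorSpan_empty] at hfin
    simp at hfin
  obtain ⟨b, hb, hfb, hgb⟩ : ∃ b ∈ convexHull ℝ (B : Set E3), f b = c ∧ g b = d := by
    by_cases hpv : p = v
    · refine on_line hB hQ hf hg hp.2.1 ?_ ?_ ?_
      · rw [← hpv]
        intro h
        exact hu (by simpa using h)
      · rw [map_add, fu, hp.2.2.1, add_zero]
      · rw [map_add, gu, hp.2.2.2, add_zero]
    · exact on_line hB hQ hf hg hp.1 hpv hp.2.2.1 hp.2.2.2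
  have hq1 := off_plane hQ hk hv hq.1 hq.2.2.2
  have hq2 := off_plane hQ hk hv hq.2.1 (by rw [map_add, ku, hq.2.2.2, add_zero])
  have hr1 := off_plane hQ hk hv hr.1 hr.2.2
  have hsub : ∀ x ∈ convexHull ℝ (B : Set E3), ∀ y ∈ convexHull ℝ (B : Set E3),
      x - y ∈ vectorSpan ℝ (B : Set E3) := by
    intro x hx y hy
    rw [← vectorSpan_convexHull]
    exact vsub_mem_vectorSpan ℝ hx hy
  have hli : LinearIndependent ℝ ![(q + u) - q, q - b, r - b] := by
    rw [Fintype.linearIndependent_iff]
    intro w hw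
    rw [Fin.sum_univ_three] at hw
    simp only [Matrix.cons_val_zero, Matrix.cons_val_one, Matrix.cons_val_two, add_sub_cancel_left,
      Matrix.tail_cons, Matrix.head_cons] at hw
    have h1 := congrArg f hw
    have h2 := congrArg g hw
    simp only [map_add, map_smul, map_sub, smul_eq_mul, fu, gu, hq.2.2.1, hfb, hgb, hr.2.1,
      map_zero, sub_self, mul_zero, zero_add, add_zero] at h1 h2
    have hfr : f r - c ≠ 0 := by
      intro h
      exact no r ⟨by linarith, hr.2.1, hr.2.2⟩
    have hgq : g q - d ≠ 0 := by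
      intro h
      exact no q ⟨hq.2.2.1, by linarith, hq.2.2.2⟩
    have w2 : w 2 = 0 := (mul_eq_zero.1 h1).resolve_right hfr
    have w1 : w 1 = 0 := (mul_eq_zero.1 h2).resolve_right hgq
    rw [w1, w2] at hw
    simp only [zero_smul, add_zero, smul_eq_zero, hu, or_false] at hw
    intro i
    fin_cases i
    · exact hw
    · exact w1
    · exact w2
  have hle : Submodule.span ℝ (Set.range ![(q + u) - q, q - b, r - b]) ≤
      vectorSpan ℝ (B : Set E3) := by
    rw [Submodule.span_le]
    rintro _ ⟨i, rfl⟩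
    fin_cases i
    · exact hsub _ hq2 _ hq1
    · exact hsub _ hq1 _ hb
    · exact hsub _ hr1 _ hb
  have h3 := Submodule.finrank_mono hle
  rw [finrank_span_eq_card hli, hfin] at h3
  simp at h3

/-- A set `Q` with three supporting planes parallel to `u`, without common point, any two of which
meet in a line containing two points of `Q` (with difference `u`), is not a pyramid. -/
theorem not_isPyramid {Q : Set E3} {u : E3} (hu : u ≠ 0)
    {f g k : E3 →ₗ[ℝ] ℝ} {c d e : ℝ} (hf : ∀ x ∈ Q, f x ≤ c) (hg : ∀ x ∈ Q, g x ≤ d)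
    (hk : ∀ x ∈ Q, k x ≤ e) (fu : f u = 0) (gu : g u = 0) (ku : k u = 0)
    (no : ∀ x, ¬ (f x = c ∧ g x = d ∧ k x = e)) {p q r : E3}
    (hp : p ∈ Q ∧ p + u ∈ Q ∧ f p = c ∧ g p = d) (hq : q ∈ Q ∧ q + u ∈ Q ∧ f q = c ∧ k q = e)
    (hr : r ∈ Q ∧ r + u ∈ Q ∧ g r = d ∧ k r = e) : ¬ IsPyramid Q := by
  rintro ⟨B, v, hfin, -, hQ⟩
  have hvQ : v ∈ Q := by
    rw [hQ]
    exact subset_convexHull ℝ _ (mem_insert _ _)
  rcases (hk v hvQ).lt_or_eq with h | h
  · exact aux hfin hQ hu hf hg hk fu gu ku no hp hq ⟨hr.1, hr.2.2.1, hr.2.2.2⟩ h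
  · rcases (hg v hvQ).lt_or_eq with h' | h'
    · exact aux hfin hQ hu hf hk hg fu ku gu (fun x hx => no x ⟨hx.1, hx.2.2, hx.2.1⟩) hq hp
        ⟨hr.1, hr.2.2.2, hr.2.2.1⟩ h'
    · have h'' : f v < c := lt_of_le_of_ne (hf v hvQ) (fun h1 => no v ⟨h1, h', h⟩)
      exact aux hfin hQ hu hg hk hf gu ku fu (fun x hx => no x ⟨hx.2.2, hx.1, hx.2.1⟩) hr
        ⟨hp.1, hp.2.1, hp.2.2.2, hp.2.2.1⟩ ⟨hq.1, hq.2.2.2, hq.2.2.1⟩ h''

/-- A pyramid does not lie in the plane `z = 0`. -/
theorem not_isPyramid_flat {Q : Set E3} (hQ0 : ∀ x ∈ Q, x 2 = 0) : ¬ IsPyramid Q := by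
  rintro ⟨B, v, hfin, hv, hQ⟩
  have hB : (B : Set E3).Nonempty := by
    rw [nonempty_iff_ne_empty]
    intro h
    rw [h, vectorSpan_empty] at hfin
    simp at hfin
  obtain ⟨b, hb⟩ := hB
  have hins : ∀ x ∈ insert v (B : Set E3), x 2 = 0 := by
    intro x hx
    apply hQ0
    rw [hQ]
    exact subset_convexHull ℝ _ hx
  have hne : fn 0 0 1 ≠ 0 := fn_ne_zero (by norm_num)
  have h1 := finrank_le_two (F := insert v (B : Set E3)) (c := 0) hne (fun x hx => by
    simpa using hins x hx)
  have h2 : vectorSpan ℝ (B : Set E3) ≤ vectorSpan ℝ (insert v (B : Set E3)) :=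
    vectorSpan_mono ℝ (subset_insert _ _)
  have h3 : vectorSpan ℝ (B : Set E3) = vectorSpan ℝ (insert v (B : Set E3)) := by
    apply Submodule.eq_of_le_of_finrank_le h2
    rw [hfin]; exact h1
  apply hv
  have h4 : v -ᵥ b ∈ vectorSpan ℝ (B : Set E3) := by
    rw [h3]
    exact vsub_mem_vectorSpan ℝ (mem_insert _ _) (mem_insert_of_mem _ hb)
  have h5 := vadd_mem_affineSpan_of_mem_affineSpan_of_mem_vectorSpan
    (mem_affineSpan ℝ hb) h4
  simpa using h5

/-! ### The middle part of the large dome survives every cut -/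

/-- The middle part of the large dome. -/
def M : Set E3 := {p ∈ dome 1 | -(1 / 2) ≤ p 0 ∧ p 0 ≤ 1 / 2}

theorem convex_M : Convex ℝ M := by
  have h1 : Convex ℝ (dome 1) := convex_convexHull ℝ _
  have h2 : Convex ℝ {p : E3 | -(1 / 2) ≤ fn 1 0 0 p} := convex_halfSpace_ge (fn 1 0 0).isLinear _
  have h3 : Convex ℝ {p : E3 | fn 1 0 0 p ≤ 1 / 2} := convex_halfSpace_le (fn 1 0 0).isLinear _
  have h4 : M = dome 1 ∩ ({p : E3 | -(1 / 2) ≤ fn 1 0 0 p} ∩ {p : E3 | fn 1 0 0 p ≤ 1 / 2}) := by
    ext p
    simp only [M, mem_ofPred_eq, mem_inter_iff, fn_apply, one_mul, zero_mul, add_zero]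
  rw [h4]
  exact h1.inter (h2.inter h3)

theorem seg_mem {S : Set E3} (hS : Convex ℝ S) {a b c a' b' c' : ℝ} (h : pt a b c ∈ S)
    (h' : pt a' b' c' ∈ S) {t : ℝ} (ht0 : 0 ≤ t) (ht1 : t ≤ 1) :
    pt ((1 - t) * a + t * a') ((1 - t) * b + t * b') ((1 - t) * c + t * c') ∈ S := by
  have := hS h h' (sub_nonneg.2 ht1) ht0 (by ring)
  convert this using 1
  apply ext3 <;> simp

theorem side_mem_M {x s : ℝ} (hx : x = -(1 / 2) ∨ x = 1 / 2) (hs : s = 1 ∨ s = -1) :
    pt x s 0 ∈ M := by
  have h1 : pt (-3) s 0 ∈ dome 1 := by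
    apply subset_convexHull
    rcases hs with rfl | rfl <;> simp [verts]
  have h2 : pt 3 s 0 ∈ dome 1 := by
    apply subset_convexHull
    rcases hs with rfl | rfl <;> simp [verts]
  have h3 := seg_mem (convex_convexHull ℝ (verts 1)) h1 h2 (t := (x + 3) / 6)
    (by rcases hx with rfl | rfl <;> norm_num) (by rcases hx with rfl | rfl <;> norm_num)
  have h4 : pt x s 0 = pt ((1 - (x + 3) / 6) * -3 + (x + 3) / 6 * 3)
      ((1 - (x + 3) / 6) * s + (x + 3) / 6 * s) ((1 - (x + 3) / 6) * 0 + (x + 3) / 6 * 0) := by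
    apply ext3 <;> simp <;> ring
  refine ⟨?_, ?_⟩
  · rw [h4]; exact h3
  · rcases hx with rfl | rfl <;> simp <;> norm_num

theorem ridge_mem_M {x : ℝ} (hx : x = -(1 / 2) ∨ x = 1 / 2) : pt x 0 1 ∈ M := by
  have h1 : pt (-2) 0 1 ∈ dome 1 := by
    apply subset_convexHull
    simp [verts]
  have h2 : pt 2 0 1 ∈ dome 1 := by
    apply subset_convexHull
    simp [verts]
  have h3 := seg_mem (convex_convexHull ℝ (verts 1)) h1 h2 (t := (x + 2) / 4)
    (by rcases hx with rfl | rfl <;> norm_num) (by rcases hx with rfl | rfl <;> norm_num)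
  have h4 : pt x 0 1 = pt ((1 - (x + 2) / 4) * -2 + (x + 2) / 4 * 2)
      ((1 - (x + 2) / 4) * 0 + (x + 2) / 4 * 0) ((1 - (x + 2) / 4) * 1 + (x + 2) / 4 * 1) := by
    apply ext3 <;> simp <;> ring
  refine ⟨?_, ?_⟩
  · rw [h4]; exact h3
  · rcases hx with rfl | rfl <;> simp <;> norm_num

theorem slope_mem_M {x s w : ℝ} (hx : x = -(1 / 2) ∨ x = 1 / 2) (hs : s = 1 ∨ s = -1)
    (hw0 : 0 ≤ w) (hw1 : w ≤ 1) : pt x (s * w) (1 - w) ∈ M := by
  have h3 := seg_mem convex_M (ridge_mem_M hx) (side_mem_M hx hs) hw0 hw1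
  have h4 : pt x (s * w) (1 - w) = pt ((1 - w) * x + w * x) ((1 - w) * 0 + w * s)
      ((1 - w) * 1 + w * 0) := by
    apply ext3 <;> simp <;> ring
  rw [h4]; exact h3

theorem small_subset : dome (1 / 2) ⊆ dome 1 := by
  apply convexHull_min _ (convex_convexHull ℝ _)
  have hc : ∀ x ∈ corners, x ∈ convexHull ℝ (verts 1) := fun x hx =>
    subset_convexHull ℝ _ (corners_subset 1 hx)
  rw [forall_corners] at hc
  obtain ⟨h1, h2, h3, h4⟩ := hc
  have r1 : pt 2 0 1 ∈ convexHull ℝ (verts 1) := subset_convexHull ℝ _ (by simp [verts])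
  have r2 : pt (-2) 0 1 ∈ convexHull ℝ (verts 1) := subset_convexHull ℝ _ (by simp [verts])
  have hS := convex_convexHull ℝ (verts 1)
  have m1 : pt 3 0 0 ∈ convexHull ℝ (verts 1) := by
    have := seg_mem hS h1 h2 (t := 1 / 2) (by norm_num) (by norm_num)
    convert this using 1
    apply ext3 <;> simp <;> norm_num
  have m2 : pt (-3) 0 0 ∈ convexHull ℝ (verts 1) := by
    have := seg_mem hS h3 h4 (t := 1 / 2) (by norm_num) (by norm_num)
    convert this using 1
    apply ext3 <;> simp <;> norm_num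
  have q1 : pt 2 0 0 ∈ convexHull ℝ (verts 1) := by
    have := seg_mem hS m2 m1 (t := 5 / 6) (by norm_num) (by norm_num)
    convert this using 1
    apply ext3 <;> simp <;> norm_num
  have q2 : pt (-2) 0 0 ∈ convexHull ℝ (verts 1) := by
    have := seg_mem hS m2 m1 (t := 1 / 6) (by norm_num) (by norm_num)
    convert this using 1
    apply ext3 <;> simp <;> norm_num
  have hgoal : ∀ x ∈ verts (1 / 2), x ∈ convexHull ℝ (verts 1) := by
    rw [forall_verts]
    refine ⟨h1, h2, h3, h4, ?_, ?_⟩
    · have := seg_mem hS q1 r1 (t := 1 / 2) (by norm_num) (by norm_num)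
      convert this using 1
      apply ext3 <;> simp <;> norm_num
    · have := seg_mem hS q2 r2 (t := 1 / 2) (by norm_num) (by norm_num)
      convert this using 1
      apply ext3 <;> simp <;> norm_num
  exact hgoal

theorem subset_halfspace {D : Set E3} (hD : IsConvexPolyhedron D) {l : E3 →ₗ[ℝ] ℝ} {c : ℝ}
    (h : ∀ x ∈ interior D, l x < c) : ∀ x ∈ D, l x ≤ c := by
  obtain ⟨⟨S, rfl⟩, hint⟩ := hD
  have h1 : closure (interior (convexHull ℝ (S : Set E3))) = closure (convexHull ℝ (S : Set E3)) :=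
    (convex_convexHull ℝ _).closure_interior_eq_closure_of_nonempty_interior hint
  intro x hx
  have hx' : x ∈ closure (interior (convexHull ℝ (S : Set E3))) := by
    rw [h1]; exact subset_closure hx
  have hcl : IsClosed {x : E3 | l x ≤ c} :=
    isClosed_le l.continuous_of_finiteDimensional continuous_const
  exact closure_minimal (fun y hy => (h y hy).le) hcl hx'

theorem survive {A : Set E3} (hMA : M ⊆ A) {l : E3 →ₗ[ℝ] ℝ} {c : ℝ} (h : ∀ x ∈ M, l x ≤ c)
    {q : E3} (hq : q ∈ M) (hqc : l q < c) : M ⊆ closure (A \ {x ∈ A | c ≤ l x}) := by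
  intro x hx
  have h1 : openSegment ℝ x q ⊆ A \ {x ∈ A | c ≤ l x} := by
    rintro _ ⟨s, t, hs, ht, hst, rfl⟩
    have hm : s • x + t • q ∈ M := convex_M hx hq hs.le ht.le hst
    refine ⟨hMA hm, ?_⟩
    rintro ⟨-, hc⟩
    simp only [map_add, map_smul, smul_eq_mul] at hc
    have h2 := mul_le_mul_of_nonneg_left (h x hx) hs.le
    have h3 := mul_lt_mul_of_pos_left hqc ht
    have h4 : s * c + t * c = c := by rw [← add_mul, hst, one_mul]
    linarith
  exact closure_mono h1 (segment_subset_closure_openSegment (left_mem_segment ℝ x q))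

theorem M_bounds {p : E3} (hp : p ∈ M) : -(1 / 2) ≤ p 0 ∧ p 0 ≤ 1 / 2 ∧ 0 ≤ p 2 ∧
    p 1 + p 2 ≤ 1 ∧ -p 1 + p 2 ≤ 1 := by
  have h1 := dome_le (h := 1) (a := 0) (b := 1) (c := 1) (d := 1) (by norm_num) (by norm_num)
    (by norm_num) (by norm_num) (by norm_num) (by norm_num) hp.1
  have h2 := dome_le (h := 1) (a := 0) (b := -1) (c := 1) (d := 1) (by norm_num) (by norm_num)
    (by norm_num) (by norm_num) (by norm_num) (by norm_num) hp.1
  have h3 := dome_z_nonneg one_pos hp.1
  exact ⟨hp.2.1, hp.2.2, h3, by linarith, by linarith⟩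

theorem step {A A' : Set E3} (hA : A ⊆ dome 1) (hM : M ⊆ A)
    (hcut : Cut X (dome (1 / 2)) A A') : A' ⊆ dome 1 ∧ M ⊆ A' := by
  obtain ⟨l, c, hl, ⟨e, he, hec⟩, hint, hpyr, rfl⟩ := hcut
  constructor
  · have hcl : IsClosed (dome 1) := by
      have hfinite : (verts 1).Finite := by simp [verts]
      exact (hfinite.isCompact_convexHull (𝕜 := ℝ)).isClosed
    exact closure_minimal (sdiff_subset.trans hA) hcl
  have hD := subset_halfspace (isConvexPolyhedron_dome (by norm_num : (0 : ℝ) < 1 / 2)) hint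
  have hD' : ∀ x ∈ verts (1 / 2), l x ≤ c := fun x hx => hD x (subset_convexHull ℝ _ hx)
  rw [forall_verts] at hD'
  obtain ⟨h1, h2, h3, h4, h5, h6⟩ := hD'
  rw [functional_eq] at h1 h2 h3 h4 h5 h6
  simp only [pt_zero, pt_one, pt_two] at h1 h2 h3 h4 h5 h6
  have hval : ∀ p : E3, l p = l (pt 1 0 0) * p 0 + l (pt 0 1 0) * p 1 + l (pt 0 0 1) * p 2 :=
    functional_eq l
  set a := l (pt 1 0 0) with ha
  set b := l (pt 0 1 0) with hb
  set g := l (pt 0 0 1) with hg
  -- the degenerate case: the plane of the base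
  have flat : a = 0 → b = 0 → c = 0 → False := by
    intro ha0 hb0 hc0
    have hg0 : g < 0 := by
      rcases lt_trichotomy g 0 with h | h | h
      · exact h
      · exact absurd (functional_ext ha0 hb0 h) hl
      · rw [ha0, hc0] at h5; linarith
    refine not_isPyramid_flat ?_ hpyr
    rintro x ⟨hx, hxc⟩
    rw [hval, ha0, hb0, hc0] at hxc
    have := dome_z_nonneg one_pos (hA hx)
    nlinarith
  rcases edge_X he with ⟨s, hs, rfl⟩ | ⟨s, hs, rfl⟩
  · -- the plane contains a short side
    have e1 : pt (3 * s) 1 0 ∈ sideX s := by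
      rw [sideX_eq hs]; exact subset_convexHull ℝ _ (by simp)
    have e2 : pt (3 * s) (-1) 0 ∈ sideX s := by
      rw [sideX_eq hs]; exact subset_convexHull ℝ _ (by simp)
    have k1 := hec _ e1
    have k2 := hec _ e2
    rw [hval] at k1 k2
    simp only [pt_zero, pt_one, pt_two] at k1 k2
    have hb0 : b = 0 := by linarith
    have hc3 : c = 3 * (s * a) := by rw [hb0] at k1; linarith
    have hsa : 0 ≤ s * a := by rcases hs with rfl | rfl <;> linarith
    have hg2 : g ≤ 2 * (s * a) := by rcases hs with rfl | rfl <;> linarith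
    rcases hsa.eq_or_lt with h0 | h0
    · exfalso
      refine flat ?_ hb0 (by linarith)
      rcases hs with rfl | rfl <;> linarith
    · have hlt : ∀ x ∈ M, l x < c := by
        intro x hx
        obtain ⟨b1, b2, b3, b4, b5⟩ := M_bounds hx
        rw [hval, hb0, hc3]
        have t1 : a * x 0 ≤ s * a * (1 / 2) := by
          rcases hs with rfl | rfl <;> nlinarith
        have t2 : g * x 2 ≤ 2 * (s * a) := by
          have : x 2 ≤ 1 := by linarith
          nlinarith
        linarith
      exact survive hM (fun x hx => (hlt x hx).le) (ridge_mem_M (Or.inr rfl))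
        (hlt _ (ridge_mem_M (Or.inr rfl)))
  · -- the plane contains a long side
    have e1 : pt 3 s 0 ∈ sideY s := by
      rw [sideY_eq hs]; exact subset_convexHull ℝ _ (by simp)
    have e2 : pt (-3) s 0 ∈ sideY s := by
      rw [sideY_eq hs]; exact subset_convexHull ℝ _ (by simp)
    have k1 := hec _ e1
    have k2 := hec _ e2
    rw [hval] at k1 k2
    simp only [pt_zero, pt_one, pt_two] at k1 k2
    have ha0 : a = 0 := by linarith
    have hc3 : c = s * b := by rw [ha0] at k1; linarith
    have hss : s * s = 1 := by rcases hs with rfl | rfl <;> norm_num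
    have hsb : 0 ≤ s * b := by rcases hs with rfl | rfl <;> linarith
    have hg2 : g ≤ 2 * (s * b) := by rw [ha0] at h5; linarith
    rcases hsb.eq_or_lt with h0 | h0
    · exfalso
      refine flat ha0 ?_ (by linarith)
      rcases hs with rfl | rfl <;> linarith
    have hss' : -s = 1 ∨ -s = -1 := by rcases hs with rfl | rfl <;> norm_num
    rcases le_or_gt g (s * b) with hgs | hgs
    · have hle : ∀ x ∈ M, l x ≤ c := by
        intro x hx
        obtain ⟨b1, b2, b3, b4, b5⟩ := M_bounds hx
        rw [hval, ha0, hc3]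
        have t1 : b * x 1 ≤ s * b * (1 - x 2) := by
          rcases hs with rfl | rfl <;> nlinarith
        have t2 : g * x 2 ≤ s * b * x 2 := mul_le_mul_of_nonneg_right hgs b3
        nlinarith
      refine survive hM hle (side_mem_M (Or.inr rfl) hss') ?_
      rw [hval, ha0, hc3]
      simp only [pt_zero, pt_one, pt_two]
      nlinarith
    · exfalso
      have hw0 : 0 < (g - s * b) / (g + s * b) := div_pos (by linarith) (by linarith)
      have hw1 : (g - s * b) / (g + s * b) < 1 := by
        rw [div_lt_one (by linarith)]; linarith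
      have hwe : (g - s * b) / (g + s * b) * (g + s * b) = g - s * b :=
        div_mul_cancel₀ _ (by linarith)
      set w := (g - s * b) / (g + s * b) with hw
      have hu : pt 1 0 0 ≠ 0 := by
        intro h
        have := congrArg (fun p : E3 => p 0) h
        simp at this
      have mem : ∀ y z : ℝ, (∀ x : ℝ, x = -(1 / 2) ∨ x = 1 / 2 → pt x y z ∈ M) →
          c ≤ b * y + g * z → pt (-(1 / 2)) y z ∈ {x ∈ A | c ≤ l x} ∧
            pt (-(1 / 2)) y z + pt 1 0 0 ∈ {x ∈ A | c ≤ l x} := by
        intro y z hyz hcyz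
        have hplus : pt (-(1 / 2)) y z + pt 1 0 0 = pt (1 / 2) y z := by
          apply ext3 <;> simp <;> norm_num
        rw [hplus]
        refine ⟨⟨hM (hyz _ (Or.inl rfl)), ?_⟩, ⟨hM (hyz _ (Or.inr rfl)), ?_⟩⟩
        · rw [hval, ha0]; simp only [pt_zero, pt_one, pt_two]; linarith
        · rw [hval, ha0]; simp only [pt_zero, pt_one, pt_two]; linarith
      have mp := mem 0 1 (fun x hx => ridge_mem_M hx) (by rw [hc3]; linarith)
      have mq := mem s 0 (fun x hx => side_mem_M hx hs) (by rw [hc3]; linarith)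
      have mr := mem ((-s) * w) (1 - w) (fun x hx => slope_mem_M hx hss' hw0.le hw1.le)
        (by rw [hc3]; nlinarith)
      refine not_isPyramid hu (f := fn 0 s 1) (g := fn 0 (-s) 1) (k := fn 0 (-b) (-g))
        (c := 1) (d := 1) (e := -c) ?_ ?_ ?_ (by simp) (by simp) (by simp) ?_
        (p := pt (-(1 / 2)) 0 1) (q := pt (-(1 / 2)) s 0) (r := pt (-(1 / 2)) ((-s) * w) (1 - w))
        ⟨mp.1, mp.2, by simp, by simp⟩ ⟨mq.1, mq.2, by simp [hss], ?_⟩
        ⟨mr.1, mr.2, ?_, ?_⟩ hpyr
      · rintro x ⟨hx, -⟩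
        have hx1 := hA hx
        have := dome_le (h := 1) (a := 0) (b := s) (c := 1) (d := 1)
          (by rcases hs with rfl | rfl <;> norm_num) (by rcases hs with rfl | rfl <;> norm_num)
          (by rcases hs with rfl | rfl <;> norm_num) (by rcases hs with rfl | rfl <;> norm_num)
          (by norm_num) (by norm_num) hx1
        simpa using this
      · rintro x ⟨hx, -⟩
        have hx1 := hA hx
        have := dome_le (h := 1) (a := 0) (b := -s) (c := 1) (d := 1)
          (by rcases hs with rfl | rfl <;> norm_num) (by rcases hs with rfl | rfl <;> norm_num)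
          (by rcases hs with rfl | rfl <;> norm_num) (by rcases hs with rfl | rfl <;> norm_num)
          (by norm_num) (by norm_num) hx1
        simpa using this
      · rintro x ⟨-, hxc⟩
        rw [hval, ha0] at hxc
        simp only [fn_apply]
        linarith
      · rintro x ⟨x1, x2, x3⟩
        simp only [fn_apply] at x1 x2 x3
        have y2 : x 2 = 1 := by linarith
        have y1 : s * x 1 = 0 := by linarith
        have y1' : x 1 = 0 := by
          rcases mul_eq_zero.1 y1 with h | h
          · rw [h] at hss; norm_num at hss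
          · exact h
        rw [y1', y2, hc3] at x3
        linarith
      · simp only [fn_apply, pt_zero, pt_one, pt_two]
        rw [hc3]; ring
      · simp only [fn_apply, pt_zero, pt_one, pt_two]
        linear_combination w * hss
      · simp only [fn_apply, pt_zero, pt_one, pt_two]
        rw [hc3]
        linear_combination hwe

/-- There are a convex polyhedron `P`, a face `X` of `P` and a (g-)dome `D ⊆ P` with base `X` such
that `D` is not reached from `P` by any finite sequence of admissible cuts. Moreover `P` and `D`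
can both be chosen to be domes with base `X`. -/
theorem result : ∃ P X D : Set E3, IsConvexPolyhedron P ∧ IsFace P X ∧ IsGDome D X ∧ D ⊆ P ∧
    IsDome P X ∧ IsDome D X ∧ ¬ Reachable X D P := by
  have hhalf : (0 : ℝ) < 1 / 2 := by norm_num
  refine ⟨dome 1, X, dome (1 / 2), isConvexPolyhedron_dome one_pos, isFace_X one_pos,
    isGDome_of_isDome (isDome_dome hhalf), small_subset, isDome_dome one_pos, isDome_dome hhalf,
    ?_⟩
  intro hreach
  have key : ∀ A : Set E3, Relation.ReflTransGen (Cut X (dome (1 / 2))) (dome 1) A →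
      A ⊆ dome 1 ∧ M ⊆ A := by
    intro A hA
    induction hA with
    | refl => exact ⟨Subset.rfl, fun x hx => hx.1⟩
    | tail _ hcut ih => exact step ih.1 ih.2 hcut
  have h1 := (key _ hreach).2 (ridge_mem_M (Or.inr rfl))
  have h2 := dome_le (h := 1 / 2) (a := 0) (b := 0) (c := 1) (d := 1 / 2) (by norm_num)
    (by norm_num) (by norm_num) (by norm_num) (by norm_num) (by norm_num) h1
  simp at h2
  norm_num at h2

end Pool.Agent.Results.MP_3a21c3_co.DomeInDome
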